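import Pool.Agent.Lib.MP_c7858e_gt.Main

/-! On the torus of dimension `d ≥ 3`, the volume and finitely many widths can be prescribed. -/

namespace Pool.Agent.Results.MP_c7858e_gt.Prescribe

open Pool.Agent.Lib.MP_c7858e_gt

theorem result (d : ℕ) (hd : 3 ≤ d) (V : ℝ) (hV : 0 < V) (P : ℕ) (b : ℕ → ℝ) (hb : StrictAnti b)
    (h0 : ∀ i, 0 < b i) : ∃ g : Met d, vol g = ENNReal.ofReal V ∧
      ∀ p, 1 ≤ p → p ≤ P → width g p = ENNReal.ofReal (∑ i ∈ Finset.range p, b i) := by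
  obtain ⟨n, rfl⟩ := Nat.exists_eq_add_of_le' hd
  obtain ⟨g, h1, h2⟩ := prescribe n P b hb h0 hV
  refine ⟨g, h1, fun p hp hP => ?_⟩
  obtain ⟨q, rfl⟩ := Nat.exists_eq_add_of_le' hp
  exact h2 q (by omega)

end Pool.Agent.Results.MP_c7858e_gt.Prescribe
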